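import Pool.Agent.W23.DC.Fin3
import Pool.Agent.W23.DSa

/-!
DC project (helper23): from positive weight to an almost prime; counting the exceptional primes.
-/

namespace Pool.Agent.W23.DC

open Finset
open Pool.Agent.H442R2
open Pool.Agent.H442R2.KF

theorem Wf_le_one {N : ℕ} {ε₁ : ℝ} (n : ℕ) : Wf N ε₁ n ≤ 1 := by
  classical
  unfold Wf
  have h1 : 0 ≤ ∑ q ∈ pr N (1 / 7) (119 / 250), cw N q * (if q ∣ n then 1 else 0) := by
    apply Finset.sum_nonneg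
    intro q hq
    have := cw_nonneg q hq
    split_ifs <;> simp [this]
  split_ifs <;> linarith

theorem sum_le_pos {N : ℕ} {ε₁ : ℝ} (A : Finset ℕ) (n : ℕ → ℕ) :
    ∑ p ∈ A, Wf N ε₁ (n p) ≤ ((A.filter (fun p => 0 < Wf N ε₁ (n p))).card : ℝ) := by
  classical
  rw [← Finset.sum_filter_add_sum_filter_not A (fun p => 0 < Wf N ε₁ (n p))]
  have h1 : ∑ p ∈ A.filter (fun p => ¬ 0 < Wf N ε₁ (n p)), Wf N ε₁ (n p) ≤ 0 := by
    apply Finset.sum_nonpos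
    intro p hp
    exact not_lt.1 (mem_filter.1 hp).2
  have h2 : ∑ p ∈ A.filter (fun p => 0 < Wf N ε₁ (n p)), Wf N ε₁ (n p) ≤
      ((A.filter (fun p => 0 < Wf N ε₁ (n p))).card : ℝ) := by
    calc _ ≤ ∑ p ∈ A.filter (fun p => 0 < Wf N ε₁ (n p)), (1 : ℝ) :=
          Finset.sum_le_sum fun p _ => Wf_le_one _
      _ = _ := by simp
  linarith

theorem tt_lt_iff {N : ℕ} (hN : 2 ≤ N) {p : ℕ} (hp : 0 < p) (u : ℝ) :
    tt N p < u ↔ (p : ℝ) < (N : ℝ) ^ u := by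
  have hL : 0 < Real.log N := Real.log_pos (by exact_mod_cast (by omega : 1 < N))
  have hN0 : (0 : ℝ) < N := by exact_mod_cast (by omega : 0 < N)
  have hp0 : (0 : ℝ) < p := by exact_mod_cast hp
  unfold tt
  rw [div_lt_iff₀ hL, ← Real.log_rpow hN0, Real.log_lt_log_iff hp0 (Real.rpow_pos_of_pos hN0 _)]

theorem le_tt_iff {N : ℕ} (hN : 2 ≤ N) {p : ℕ} (hp : 0 < p) (u : ℝ) :
    u ≤ tt N p ↔ (N : ℝ) ^ u ≤ (p : ℝ) := by
  rw [← not_lt, ← not_lt, tt_lt_iff hN hp]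

/-- the structure of `n` -/
theorem struct : ∃ N₀ : ℕ, ∀ N : ℕ, N₀ ≤ N → ∀ (ε₁ : ℝ) (n : ℕ), n ≠ 0 → n ≤ 2 * N →
    0 < Wf N ε₁ n → (∀ q : ℕ, q.Prime → (N : ℝ) ^ (1 / 7 : ℝ) ≤ q → ¬ q ^ 2 ∣ n) →
    ∃ m s : ℕ, n = m * s ∧ (∀ l : ℕ, l.Prime → l ∣ m → (l : ℝ) < (N : ℝ) ^ ε₁) ∧
      s.primeFactorsList.length ≤ 2 ∧ ∀ q ∈ s.primeFactors, (N : ℝ) ^ (1 / 7 : ℝ) ≤ q := by
  classical
  obtain ⟨N₀, hN₀⟩ : ∃ N₀ : ℕ, ∀ N : ℕ, N₀ ≤ N → 1000 ≤ Real.log (N : ℝ) := by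
    have := (Real.tendsto_log_atTop.comp (tendsto_natCast_atTop_atTop (R := ℝ))).eventually_ge_atTop
      1000
    exact Filter.eventually_atTop.1 this
  refine ⟨max N₀ 2, ?_⟩
  intro N hN ε₁ n hn0 hn2 hW hsq
  have hN2 : 2 ≤ N := (le_max_right _ _).trans hN
  have hlog := hN₀ N ((le_max_left _ _).trans hN)
  have hN1 : (1 : ℝ) ≤ N := by exact_mod_cast (by omega : 1 ≤ N)
  have hN0 : (0 : ℝ) < N := by linarith
  -- the sieve condition
  have hI : ∀ p ∈ pr N ε₁ (1 / 7), ¬ p ∣ n := by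
    by_contra h
    unfold Wf at hW
    rw [if_neg h, zero_mul] at hW
    exact lt_irrefl _ hW
  have hS1 : ∑ q ∈ pr N (1 / 7) (119 / 250), cw N q * (if q ∣ n then 1 else 0) < 1 := by
    unfold Wf at hW
    rw [if_pos hI, one_mul] at hW
    linarith
  -- the large prime factors
  set S : Finset ℕ := n.primeFactors.filter (fun q => (N : ℝ) ^ (1 / 7 : ℝ) ≤ q) with hS
  have hSp : ∀ q ∈ S, q.Prime ∧ q ∣ n ∧ (N : ℝ) ^ (1 / 7 : ℝ) ≤ q := by
    intro q hq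
    rw [hS, mem_filter, Nat.mem_primeFactors] at hq
    exact ⟨hq.1.1, hq.1.2.1, hq.2⟩
  set s : ℕ := ∏ q ∈ S, q with hs
  have hsn : s ∣ n :=
    Finset.prod_primes_dvd n (fun q hq => (hSp q hq).1.prime) (fun q hq => (hSp q hq).2.1)
  have hs0 : s ≠ 0 := Finset.prod_ne_zero_iff.2 fun q hq => (hSp q hq).1.ne_zero
  have hspf : s.primeFactors = S := by
    rw [hs]
    exact Nat.primeFactors_prod fun q hq => (hSp q hq).1
  have hssq : Squarefree s := by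
    rw [hs]
    exact Finset.squarefree_prod_of_pairwise_isCoprime (fun p hp q hq hpq => by
      exact Nat.coprime_iff_isRelPrime.1
        ((Nat.coprime_primes (hSp p hp).1 (hSp q hq).1).2 hpq))
      (fun p h => (hSp p h).1.prime.squarefree)
  obtain ⟨m, hm⟩ := hsn
  have hm0 : m ≠ 0 := by
    rintro rfl
    exact hn0 (by rw [hm, mul_zero])
  refine ⟨m, s, by rw [hm, mul_comm], ?_, ?_, ?_⟩
  · intro l hl hlm
    by_contra hge
    rw [not_lt] at hge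
    have hln : l ∣ n := hm ▸ (hlm.mul_left s)
    rcases lt_or_ge (l : ℝ) ((N : ℝ) ^ (1 / 7 : ℝ)) with h1 | h1
    · refine hI l (mem_pr.2 ⟨⟨hl.pos, ?_⟩, hl, ?_, ?_⟩) hln
      · have h2 : (N : ℝ) ^ (1 / 7 : ℝ) ≤ N := by
          calc (N : ℝ) ^ (1 / 7 : ℝ) ≤ (N : ℝ) ^ (1 : ℝ) :=
                Real.rpow_le_rpow_of_exponent_le hN1 (by norm_num)
            _ = N := Real.rpow_one _
        exact_mod_cast (h1.le.trans h2)
      · exact (le_tt_iff hN2 hl.pos _).2 hge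
      · exact (tt_lt_iff hN2 hl.pos _).2 h1
    · have hlS : l ∈ S := by
        rw [hS, mem_filter, Nat.mem_primeFactors]
        exact ⟨⟨hl, hln, hn0⟩, h1⟩
      have hls : l ∣ s := Finset.dvd_prod_of_mem _ hlS
      apply hsq l hl h1
      rw [hm, sq]
      exact mul_dvd_mul hls hlm
  · -- at most two large primes
    have hcard : s.primeFactorsList.length = S.card := by
      rw [← ArithmeticFunction.cardFactors_apply,
        ← (ArithmeticFunction.cardDistinctFactors_eq_cardFactors_iff_squarefree hs0).2 hssq,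
        ArithmeticFunction.cardDistinctFactors_apply, ← hspf]
      rfl
    rw [hcard]
    by_contra hgt
    have h3 : (3 : ℝ) ≤ S.card := by exact_mod_cast (by omega : 3 ≤ S.card)
    -- sum of sizes
    have hsz : ∑ q ∈ S, tt N q ≤ 1 + 1 / 1000 := by
      unfold tt
      rw [← Finset.sum_div, ← Real.log_prod (fun q hq => by
        have := (hSp q hq).1.ne_zero
        exact_mod_cast this), div_le_iff₀ (by linarith)]
      have h4 : (∏ q ∈ S, (q : ℝ)) = (s : ℝ) := by rw [hs]; push_cast; rfl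
      rw [h4]
      have h5 : (s : ℝ) ≤ 2 * N := by
        have : s ≤ n := Nat.le_of_dvd (Nat.pos_of_ne_zero hn0) ⟨m, hm⟩
        exact_mod_cast this.trans hn2
      have h6 : Real.log s ≤ Real.log (2 * N) :=
        Real.log_le_log (by exact_mod_cast Nat.pos_of_ne_zero hs0) h5
      rw [Real.log_mul (by norm_num) hN0.ne'] at h6
      have h7 := Real.log_two_lt_d9
      nlinarith
    have h8 : ∑ q ∈ S, cw N q = 19 / 17 * (S.card - 250 / 119 * ∑ q ∈ S, tt N q) := by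
      unfold cw
      rw [← Finset.mul_sum, Finset.sum_sub_distrib, Finset.sum_const, nsmul_eq_mul, mul_one,
        ← Finset.sum_div]
      ring
    have h9 : ∑ q ∈ S, cw N q ≤
        ∑ q ∈ pr N (1 / 7) (119 / 250), cw N q * (if q ∣ n then 1 else 0) := by
      have h10 : ∑ q ∈ S, cw N q ≤ ∑ q ∈ S.filter (fun q => tt N q < 119 / 250), cw N q := by
        rw [← Finset.sum_filter_add_sum_filter_not S (fun q => tt N q < 119 / 250)]
        have : ∑ q ∈ S.filter (fun q => ¬ tt N q < 119 / 250), cw N q ≤ 0 := by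
          apply Finset.sum_nonpos
          intro q hq
          have h11 := not_lt.1 (mem_filter.1 hq).2
          unfold cw
          have : 1 ≤ tt N q / (119 / 250) := by
            rw [one_le_div (by norm_num)]
            exact h11
          nlinarith
        linarith
      refine h10.trans ?_
      have h12 : ∑ q ∈ S.filter (fun q => tt N q < 119 / 250), cw N q =
          ∑ q ∈ S.filter (fun q => tt N q < 119 / 250), cw N q * (if q ∣ n then 1 else 0) := by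
        apply Finset.sum_congr rfl
        intro q hq
        rw [if_pos (hSp q (mem_filter.1 hq).1).2.1, mul_one]
      rw [h12]
      apply Finset.sum_le_sum_of_subset_of_nonneg
      · intro q hq
        rw [mem_filter] at hq
        obtain ⟨h13, h14, h15⟩ := hSp q hq.1
        refine mem_pr.2 ⟨⟨h13.pos, ?_⟩, h13, (le_tt_iff hN2 h13.pos _).2 h15, hq.2⟩
        have h16 := (tt_lt_iff hN2 h13.pos _).1 hq.2
        have h2 : (N : ℝ) ^ (119 / 250 : ℝ) ≤ N := by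
          calc (N : ℝ) ^ (119 / 250 : ℝ) ≤ (N : ℝ) ^ (1 : ℝ) :=
                Real.rpow_le_rpow_of_exponent_le hN1 (by norm_num)
            _ = N := Real.rpow_one _
        exact_mod_cast (h16.le.trans h2)
      · intro q hq _
        have := cw_nonneg q hq
        split_ifs <;> simp [this]
    rw [h8] at h9
    nlinarith
  · intro q hq
    rw [hspf] at hq
    exact (hSp q hq).2.2

open Classical in
/-- primes `p` such that `a - p` is divisible by the square of a large prime -/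
theorem squares {N : ℕ} (hN : 2 ≤ N) (A : Finset ℕ) (hA : ∀ p ∈ A, p ≤ N) (a : ℤ)
    (ha : |a| ≤ N) :
    ((A.filter (fun p : ℕ => (p : ℤ) ≠ a ∧ ∃ q : ℕ, q.Prime ∧ (N : ℝ) ^ (1 / 7 : ℝ) ≤ q ∧
      q ^ 2 ∣ (a - (p : ℤ)).natAbs)).card : ℝ) ≤ 12 * (N : ℝ) ^ (6 / 7 : ℝ) := by
  have hN1 : (1 : ℝ) ≤ N := by exact_mod_cast (by omega : 1 ≤ N)
  have hN0 : (0 : ℝ) < N := by linarith
  have hy1 : (1 : ℝ) ≤ (N : ℝ) ^ (1 / 7 : ℝ) := Real.one_le_rpow hN1 (by norm_num)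
  obtain ⟨k, hk⟩ : ∃ k : ℕ, k + 1 = ⌈(N : ℝ) ^ (1 / 7 : ℝ)⌉₊ := by
    have : 0 < ⌈(N : ℝ) ^ (1 / 7 : ℝ)⌉₊ := Nat.ceil_pos.2 (by linarith)
    exact ⟨⌈(N : ℝ) ^ (1 / 7 : ℝ)⌉₊ - 1, by omega⟩
  have hsub : A.filter (fun p : ℕ => (p : ℤ) ≠ a ∧ ∃ q : ℕ, q.Prime ∧
      (N : ℝ) ^ (1 / 7 : ℝ) ≤ q ∧ q ^ 2 ∣ (a - (p : ℤ)).natAbs) ⊆
      (Ioo k (3 * N + 1)).biUnion (fun q =>
        A.filter (fun p : ℕ => (p : ℤ) ≠ a ∧ ((q ^ 2 : ℕ) : ℤ) ∣ a - p)) := by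
    intro p hp
    rw [mem_filter] at hp
    obtain ⟨hpA, hpa, q, hq, hqN, hqd⟩ := hp
    rw [mem_biUnion]
    refine ⟨q, ?_, ?_⟩
    · rw [mem_Ioo]
      constructor
      · have : ⌈(N : ℝ) ^ (1 / 7 : ℝ)⌉₊ ≤ q := Nat.ceil_le.2 hqN
        omega
      · have h0 : (a - (p : ℤ)).natAbs ≠ 0 := by
          rw [Ne, Int.natAbs_eq_zero]
          omega
        have h1 : q ^ 2 ≤ (a - (p : ℤ)).natAbs := Nat.le_of_dvd (Nat.pos_of_ne_zero h0) hqd
        have h2 : (a - (p : ℤ)).natAbs ≤ 2 * N := by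
          have h3 := abs_le.1 ha
          have h4 := hA p hpA
          omega
        have h5 : q ≤ q ^ 2 := Nat.le_self_pow (by norm_num) q
        omega
    · rw [mem_filter]
      exact ⟨hpA, hpa, Int.natCast_dvd.2 hqd⟩
  have h1 : ((A.filter (fun p : ℕ => (p : ℤ) ≠ a ∧ ∃ q : ℕ, q.Prime ∧ (N : ℝ) ^ (1 / 7 : ℝ) ≤ q ∧
      q ^ 2 ∣ (a - (p : ℤ)).natAbs)).card : ℝ) ≤
      ∑ q ∈ Ioo k (3 * N + 1), (DS.cc A a (q ^ 2) : ℝ) := by
    have h2 := (Finset.card_le_card hsub).trans Finset.card_biUnion_le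
    have h3 : ∑ q ∈ Ioo k (3 * N + 1), (A.filter (fun p : ℕ => (p : ℤ) ≠ a ∧
        ((q ^ 2 : ℕ) : ℤ) ∣ a - p)).card = ∑ q ∈ Ioo k (3 * N + 1), DS.cc A a (q ^ 2) := by
      apply Finset.sum_congr rfl
      intro q _
      unfold DS.cc
      congr 1
    rw [h3] at h2
    exact_mod_cast h2
  have h4 : ∑ q ∈ Ioo k (3 * N + 1), (DS.cc A a (q ^ 2) : ℝ) ≤
      6 * N * ∑ q ∈ Ioo k (3 * N + 1), ((q : ℝ) ^ 2)⁻¹ := by
    rw [Finset.mul_sum]
    apply Finset.sum_le_sum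
    intro q hq
    have hq0 : 1 ≤ q := by have := (mem_Ioo.1 hq).1; omega
    have h5 := DS.cc_triv (N := a) hA (by
      have : (0 : ℤ) ≤ N := by positivity
      linarith) (d := q ^ 2) (Nat.one_le_pow _ _ hq0)
    refine h5.trans (le_of_eq ?_)
    push_cast
    rw [div_eq_mul_inv]
  have h6 := sum_Ioo_inv_sq_le (α := ℝ) k (3 * N + 1)
  have h7 : (2 : ℝ) / (k + 1) ≤ 2 / (N : ℝ) ^ (1 / 7 : ℝ) := by
    apply div_le_div_of_nonneg_left (by norm_num) (by linarith)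
    have h8 := Nat.le_ceil ((N : ℝ) ^ (1 / 7 : ℝ))
    rw [← hk] at h8
    push_cast at h8
    exact h8
  have h9 : (N : ℝ) / (N : ℝ) ^ (1 / 7 : ℝ) = (N : ℝ) ^ (6 / 7 : ℝ) := by
    rw [div_eq_iff (by positivity), ← Real.rpow_add hN0]
    norm_num
  calc _ ≤ 6 * N * ∑ q ∈ Ioo k (3 * N + 1), ((q : ℝ) ^ 2)⁻¹ := h1.trans h4
    _ ≤ 6 * N * (2 / (N : ℝ) ^ (1 / 7 : ℝ)) := by
        have : (0 : ℝ) ≤ 6 * N := by positivity
        exact mul_le_mul_of_nonneg_left (h6.trans h7) this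
    _ = 12 * ((N : ℝ) / (N : ℝ) ^ (1 / 7 : ℝ)) := by ring
    _ = _ := by rw [h9]

open Classical in
/-- primes `p` close to `a` -/
theorem close (A : Finset ℕ) (a : ℤ) (Y : ℝ) (hY : 0 ≤ Y) :
    ((A.filter (fun p : ℕ => ((a - (p : ℤ)).natAbs : ℝ) ≤ Y)).card : ℝ) ≤ 2 * Y + 1 := by
  have h1 : (A.filter (fun p : ℕ => ((a - (p : ℤ)).natAbs : ℝ) ≤ Y)).card ≤
      (Icc (a - (⌊Y⌋₊ : ℤ)) (a + (⌊Y⌋₊ : ℤ))).card := by
    apply Finset.card_le_card_of_injOn (fun p : ℕ => (p : ℤ))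
    · intro p hp
      rw [Finset.mem_coe, mem_filter] at hp
      rw [Finset.mem_coe, mem_Icc]
      have h2 : (a - (p : ℤ)).natAbs ≤ ⌊Y⌋₊ := Nat.le_floor hp.2
      show a - (⌊Y⌋₊ : ℤ) ≤ (p : ℤ) ∧ (p : ℤ) ≤ a + (⌊Y⌋₊ : ℤ)
      constructor <;> omega
    · intro p _ q _ h
      have h' : (p : ℤ) = (q : ℤ) := h
      exact_mod_cast h'
  rw [Int.card_Icc] at h1
  have h2 : (a + (⌊Y⌋₊ : ℤ) + 1 - (a - (⌊Y⌋₊ : ℤ))).toNat = 2 * ⌊Y⌋₊ + 1 := by omega
  rw [h2] at h1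
  have h3 : (⌊Y⌋₊ : ℝ) ≤ Y := Nat.floor_le hY
  have h4 : ((A.filter (fun p : ℕ => ((a - (p : ℤ)).natAbs : ℝ) ≤ Y)).card : ℝ) ≤
      2 * (⌊Y⌋₊ : ℝ) + 1 := by exact_mod_cast h1
  linarith

end Pool.Agent.W23.DC
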