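import Pool.Agent.W23.DC.Fin6
import Pool.Agent.W24.DC.WU
import Pool.Agent.W324.DC.BCF
import Pool.Agent.W324.DC.BBF
import Pool.Agent.W324.DC.COF
import Pool.Agent.W586.DC.WXS
import Pool.Agent.W366.DC.TTF
import Pool.Agent.W397.DC.BKF
import Pool.Agent.W583.DC.FIF
import Pool.Agent.W52.DC.PT
import Pool.Agent.W120.DC.LN
import Pool.Agent.W586.DC.ER
import Pool.Agent.W366.DC.SFX
import Pool.Agent.W505.DC.MI
import Pool.Agent.W505.DC.MT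
import Pool.Agent.W378.DC.MP
import Pool.Agent.W342.DC.SP
import Pool.Agent.W378.DC.FA
import Pool.Agent.W120.DC.NU
import Pool.Agent.H442R2.BX.Asm

/-!
DC project (helper23): assembly.
-/

namespace Pool.Agent.W23.DC

open Finset
open Pool.Agent.H442R2

theorem BCF_thm : St_BCF := W324.DC.BCF W24.DC.WU BX.PW
theorem COF_thm : St_COF := W324.DC.COF (W324.DC.BBF BCF_thm) BX.SV_thm
theorem TTF_thm : St_TTF := W366.DC.TTF COF_thm BX.SM_thm BX.EX (BX.NC BX.RC BX.GS) BX.RB BX.PB_thm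
theorem BKF_thm : St_BKF := W397.DC.BKF TTF_thm (BX.DI BX.PB_thm BX.GS BX.GW_thm) BX.DU
  (BX.PR BX.PB_thm BX.RT) W586.DC.WXS BX.GW_thm BX.EX
theorem FIF_thm : St_FIF := W583.DC.FIF BKF_thm BX.FI_thm
theorem MT_thm : St_MT := W505.DC.MT W505.DC.MI

open Classical in
/-- **Dense sets of primes and almost primes** -/
theorem dense_almost_prime (δ ε : ℝ) (hδ : 0 < δ) (hε : 0 < ε) :
    ∃ (c : ℝ) (K : ℕ), 0 < c ∧ ∀ (X : ℕ), 2 ≤ X → ∀ A : Finset ℕ,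
      (∀ p ∈ A, p.Prime ∧ p ≤ X) → δ * X / Real.log X ≤ A.card →
      ((Icc (-(2 * X : ℤ)) (2 * X)).filter (fun N : ℤ => ((A.filter (fun p : ℕ =>
        ∃ m s : ℕ, (N - p).natAbs = m * s ∧ (m : ℝ) ≤ (X : ℝ) ^ ε ∧ 1 < s ∧
          s.primeFactorsList.length ≤ 2 ∧
          ∀ q ∈ s.primeFactors, (X : ℝ) ^ (1 / 7 : ℝ) < q)).card : ℝ) < c * A.card)).card ≤ K :=
  main W52.DC.PT W120.DC.LN W586.DC.ER W505.DC.MI MT_thm W378.DC.MP W378.DC.FA W120.DC.NU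
    W366.DC.SFX W342.DC.SP FIF_thm δ ε hδ hε

end Pool.Agent.W23.DC
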