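import Pool.Agent.W23.DC.Defs

/-!
DC project (helper23): boundedly many exceptional residues for a fixed threshold.
-/

namespace Pool.Agent.W23.DC

open Finset
open Pool.Agent.H442R2
open Pool.Agent.H442R2.KF

theorem few (h : St_FIF) {θ δ ε κ : ℝ} (hθ : θ < 5 / 9) (hδ : 0 < δ) (hε : 0 < ε) (hκ : 0 < κ) :
    ∃ K : ℕ, ∀ N : ℕ, 2 ≤ N → ∀ f : ℕ → ℝ, (∀ p, |f p| ≤ 1) →
      ((Icc (-(N : ℤ)) N).filter (fun a : ℤ => κ * (N / Real.log N) <
        ∑ d ∈ facR N θ ε δ, |BX.Df f N a d|)).card ≤ K := by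
  obtain ⟨η, C, hη, hC, H⟩ := h θ δ ε hθ hδ hε
  -- `C N^(-η) ≤ κ²/2` for large `N`
  have hlim : ∃ N₀ : ℕ, ∀ N : ℕ, N₀ ≤ N → C * (N : ℝ) ^ (-η) ≤ κ ^ 2 / 2 := by
    have h1 : Filter.Tendsto (fun N : ℕ => C * (N : ℝ) ^ (-η)) Filter.atTop (nhds (C * 0)) :=
      ((tendsto_rpow_neg_atTop hη).comp (tendsto_natCast_atTop_atTop (R := ℝ))).const_mul C
    rw [mul_zero] at h1
    have h2 := h1.eventually_le_const (show (0 : ℝ) < κ ^ 2 / 2 by positivity)
    exact Filter.eventually_atTop.1 h2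
  obtain ⟨N₀, hN₀⟩ := hlim
  refine ⟨max (2 * N₀ + 1) ⌈2 * C / κ ^ 2⌉₊, ?_⟩
  intro N hN f hf
  set E := (Icc (-(N : ℤ)) N).filter (fun a : ℤ => κ * (N / Real.log N) <
        ∑ d ∈ facR N θ ε δ, |BX.Df f N a d|) with hE
  rcases lt_or_ge N N₀ with hlt | hge
  · refine le_trans ?_ (le_max_left _ _)
    have h1 : E.card ≤ (Icc (-(N : ℤ)) N).card := card_filter_le _ _
    rw [Int.card_Icc] at h1
    omega
  · refine le_trans ?_ (le_max_right _ _)
    have hA : ∀ a ∈ E, |(a : ℝ)| ≤ N := by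
      intro a ha
      rw [hE, mem_filter, mem_Icc] at ha
      rw [abs_le]
      constructor
      · exact_mod_cast ha.1.1
      · exact_mod_cast ha.1.2
    have h1 := H N hN f hf E hA
    have hNr : (2 : ℝ) ≤ N := by exact_mod_cast hN
    have hL : 0 < Real.log N := Real.log_pos (by linarith)
    have hN0 : (0 : ℝ) < N := by linarith
    have hQ : 0 < (N / Real.log N) ^ 2 := by positivity
    have h2 : (E.card : ℝ) * (κ ^ 2 * (N / Real.log N) ^ 2) ≤
        ∑ a ∈ E, (∑ d ∈ facR N θ ε δ, |BX.Df f N a d|) ^ 2 := by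
      rw [← nsmul_eq_mul, ← Finset.sum_const]
      apply Finset.sum_le_sum
      intro a ha
      rw [hE, mem_filter] at ha
      rw [← mul_pow]
      exact pow_le_pow_left₀ (by positivity) ha.2.le 2
    have h3 : (E.card : ℝ) * κ ^ 2 ≤ C * (1 + E.card * (N : ℝ) ^ (-η)) := by
      have h4 : ((E.card : ℝ) * κ ^ 2) * (N / Real.log N) ^ 2 ≤
          (C * (1 + E.card * (N : ℝ) ^ (-η))) * (N / Real.log N) ^ 2 := by
        calc ((E.card : ℝ) * κ ^ 2) * (N / Real.log N) ^ 2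
            = (E.card : ℝ) * (κ ^ 2 * (N / Real.log N) ^ 2) := by ring
          _ ≤ C * (N / Real.log N) ^ 2 * (1 + E.card * (N : ℝ) ^ (-η)) := h2.trans h1
          _ = _ := by ring
      exact le_of_mul_le_mul_right h4 hQ
    have h5 := hN₀ N hge
    have h6 : (E.card : ℝ) * (C * (N : ℝ) ^ (-η)) ≤ E.card * (κ ^ 2 / 2) :=
      mul_le_mul_of_nonneg_left h5 (Nat.cast_nonneg _)
    have h7 : (E.card : ℝ) * (κ ^ 2 / 2) ≤ C := by nlinarith
    have h8 : (E.card : ℝ) ≤ 2 * C / κ ^ 2 := by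
      rw [le_div_iff₀ (by positivity)]
      linarith
    exact_mod_cast h8.trans (Nat.le_ceil _)

end Pool.Agent.W23.DC
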