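import Pool.Agent.W23.DC.Fin2

/-!
DC project (helper23): the weighted sieve, main term and error term.
-/

namespace Pool.Agent.W23.DC

open Finset
open Pool.Agent.H442R2
open Pool.Agent.H442R2.KF

theorem mem_pr {N : ℕ} {u v : ℝ} {p : ℕ} : p ∈ pr N u v ↔
    (1 ≤ p ∧ p ≤ N) ∧ p.Prime ∧ u ≤ tt N p ∧ tt N p < v := by
  simp only [pr, mem_filter, mem_Icc]

theorem siz {N : ℕ} (hN : 2 ≤ N) (u v : ℝ) : Siz (pr N u v) (tt N) := by
  have hL : 0 < Real.log N := Real.log_pos (by exact_mod_cast (by omega : 1 < N))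
  refine ⟨fun p hp => (mem_pr.1 hp).2.1, fun p hp => ?_, fun p hp q hq => ?_⟩
  · have h2 := (mem_pr.1 hp).2.1.one_lt
    exact div_pos (Real.log_pos (by exact_mod_cast h2)) hL
  · have h2 := (mem_pr.1 hp).2.1.pos
    have h3 := (mem_pr.1 hq).2.1.pos
    unfold tt
    rw [div_lt_div_iff_of_pos_right hL, Real.log_lt_log_iff (by exact_mod_cast h2)
      (by exact_mod_cast h3)]
    exact Nat.cast_lt

/-- the Richert weight of the middle prime `q` -/
noncomputable def cw (N : ℕ) (q : ℕ) : ℝ := 19 / 17 * (1 - tt N q / (119 / 250))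

theorem cw_nonneg {N : ℕ} {u : ℝ} : ∀ q ∈ pr N u (119 / 250), 0 ≤ cw N q := by
  intro q hq
  have := (mem_pr.1 hq).2.2.2
  unfold cw
  have h1 : tt N q / (119 / 250) ≤ 1 := by
    rw [div_le_one (by norm_num)]
    exact this.le
  nlinarith

theorem cw_le {N : ℕ} (hN : 2 ≤ N) {u v : ℝ} : ∀ q ∈ pr N u v, cw N q ≤ 19 / 17 := by
  intro q hq
  have := (siz hN u v).pos q hq
  unfold cw
  have h1 : 0 ≤ tt N q / (119 / 250) := by positivity
  nlinarith

open Classical in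
/-- the weight -/
noncomputable def Wf (N : ℕ) (ε₁ : ℝ) (n : ℕ) : ℝ :=
  (if ∀ p ∈ pr N ε₁ (1 / 7), ¬ p ∣ n then 1 else 0) *
    (1 - ∑ q ∈ pr N (1 / 7) (119 / 250), cw N q * (if q ∣ n then 1 else 0))

/-- the indicator of the divisors -/
noncomputable def ind (n : ℕ) : ℕ → ℝ := fun e => if e ∣ n then 1 else 0

/-- the second level and the sifting limit -/
noncomputable def ta (N q : ℕ) : ℝ := Lv (tt N q) - tt N q
noncomputable def za (N q : ℕ) : ℝ := min (1 / 7) (ta N q)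

theorem Wf_ge (hPT : St_PT) {N : ℕ} (hN : 2 ≤ N) {ε₁ : ℝ} (K n : ℕ) :
    LL (pr N ε₁ (1 / 7)) (tt N) (ind n) K false (111 / 200) (1 / 7) 1 -
      ∑ q ∈ pr N (1 / 7) (119 / 250), cw N q *
        LL (pr N ε₁ (1 / 7)) (tt N) (ind n) K true (ta N q) (za N q) q ≤ Wf N ε₁ n := by
  classical
  have hS := siz hN ε₁ (1 / 7)
  have h1 := (hPT (pr N ε₁ (1 / 7)) (tt N) hS n K (111 / 200) (1 / 7) 1
    (fun p hp _ h => (hS.pr p hp).one_lt.ne' (Nat.dvd_one.1 h))).2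
  have h2 : ∀ q ∈ pr N (1 / 7) (119 / 250),
      (if ∀ p ∈ pr N ε₁ (1 / 7), ¬ p ∣ n then (1 : ℝ) else 0) * (if q ∣ n then 1 else 0) ≤
      LL (pr N ε₁ (1 / 7)) (tt N) (ind n) K true (ta N q) (za N q) q := by
    intro q hq
    have h3 := (hPT (pr N ε₁ (1 / 7)) (tt N) hS n K (ta N q) (za N q) q (fun p hp _ h => by
      have h4 := (Nat.prime_dvd_prime_iff_eq (hS.pr p hp) (mem_pr.1 hq).2.1).1 h
      have h5 := (mem_pr.1 hp).2.2.2
      have h6 := (mem_pr.1 hq).2.2.1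
      rw [h4] at h5
      linarith)).1
    refine le_trans ?_ h3
    by_cases h7 : ∀ p ∈ pr N ε₁ (1 / 7), ¬ p ∣ n
    · by_cases h8 : q ∣ n
      · rw [if_pos h7, if_pos h8, if_pos ⟨h8, fun p hp _ => h7 p hp⟩, one_mul]
      · rw [if_neg h8, mul_zero]
        split_ifs <;> norm_num
    · rw [if_neg h7, zero_mul]
      split_ifs <;> norm_num
  have h9 : LL (pr N ε₁ (1 / 7)) (tt N) (ind n) K false (111 / 200) (1 / 7) 1 ≤
      (if ∀ p ∈ pr N ε₁ (1 / 7), ¬ p ∣ n then (1 : ℝ) else 0) := by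
    refine h1.trans ?_
    by_cases h7 : ∀ p ∈ pr N ε₁ (1 / 7), ¬ p ∣ n
    · rw [if_pos h7]
      split_ifs <;> norm_num
    · rw [if_neg h7, if_neg]
      rintro ⟨-, h8⟩
      exact h7 (fun p hp => h8 p hp (mem_pr.1 hp).2.2.2)
  have h10 : ∑ q ∈ pr N (1 / 7) (119 / 250), cw N q *
      ((if ∀ p ∈ pr N ε₁ (1 / 7), ¬ p ∣ n then (1 : ℝ) else 0) * (if q ∣ n then 1 else 0)) ≤
      ∑ q ∈ pr N (1 / 7) (119 / 250), cw N q *
        LL (pr N ε₁ (1 / 7)) (tt N) (ind n) K true (ta N q) (za N q) q :=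
    Finset.sum_le_sum fun q hq => mul_le_mul_of_nonneg_left (h2 q hq) (cw_nonneg q hq)
  have h11 : Wf N ε₁ n = (if ∀ p ∈ pr N ε₁ (1 / 7), ¬ p ∣ n then (1 : ℝ) else 0) -
      ∑ q ∈ pr N (1 / 7) (119 / 250), cw N q *
      ((if ∀ p ∈ pr N ε₁ (1 / 7), ¬ p ∣ n then (1 : ℝ) else 0) * (if q ∣ n then 1 else 0)) := by
    unfold Wf
    rw [mul_sub, mul_one, Finset.mul_sum]
    congr 1
    apply Finset.sum_congr rfl
    intro q _
    ring
  rw [h11]
  linarith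

/-- the indicator of `A` -/
noncomputable def fA (A : Finset ℕ) : ℕ → ℝ := fun p => if p ∈ A then 1 else 0

theorem fA_le (A : Finset ℕ) (p : ℕ) : |fA A p| ≤ 1 := by
  unfold fA
  split_ifs <;> simp

theorem count_eq {N : ℕ} {A : Finset ℕ} (hA : ∀ p ∈ A, p.Prime ∧ p ≤ N) (a : ℤ) (e : ℕ) :
    ∑ p ∈ A, ind (a - (p : ℤ)).natAbs e =
      (A.card : ℝ) * (1 / (Nat.totient e : ℝ)) + BX.Df (fA A) N a e := by
  classical
  unfold BX.Df
  have h1 : ∑ p ∈ (Icc 1 N).filter (fun p : ℕ => p.Prime ∧ (p : ℤ) ≡ a [ZMOD e]), fA A p =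
      ∑ p ∈ A, ind (a - (p : ℤ)).natAbs e := by
    have h2 : ∑ p ∈ A, ind (a - (p : ℤ)).natAbs e =
        ∑ p ∈ A.filter (fun p : ℕ => (p : ℤ) ≡ a [ZMOD e]), (1 : ℝ) := by
      rw [Finset.sum_filter]
      apply Finset.sum_congr rfl
      intro p _
      unfold ind
      have : (e ∣ (a - (p : ℤ)).natAbs) ↔ ((p : ℤ) ≡ a [ZMOD e]) := by
        rw [Int.modEq_iff_dvd, Int.natCast_dvd]
      simp only [this]
    rw [h2]
    symm
    have h3 : A.filter (fun p : ℕ => (p : ℤ) ≡ a [ZMOD e]) ⊆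
        (Icc 1 N).filter (fun p : ℕ => p.Prime ∧ (p : ℤ) ≡ a [ZMOD e]) := by
      intro p hp
      rw [mem_filter] at hp
      rw [mem_filter, mem_Icc]
      have := hA p hp.1
      exact ⟨⟨this.1.pos, this.2⟩, this.1, hp.2⟩
    rw [← Finset.sum_subset h3]
    · apply Finset.sum_congr rfl
      intro p hp
      rw [mem_filter] at hp
      unfold fA
      rw [if_pos hp.1]
    · intro p hp hpn
      rw [mem_filter] at hp hpn
      unfold fA
      rw [if_neg]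
      intro h
      exact hpn ⟨h, hp.2.2⟩
  have h4 : ∑ p ∈ (Icc 1 N).filter Nat.Prime, fA A p = A.card := by
    have h5 : A ⊆ (Icc 1 N).filter Nat.Prime := by
      intro p hp
      have := hA p hp
      rw [mem_filter, mem_Icc]
      exact ⟨⟨this.1.pos, this.2⟩, this.1⟩
    rw [← Finset.sum_subset h5]
    · have : ∑ p ∈ A, fA A p = ∑ p ∈ A, (1 : ℝ) := by
        apply Finset.sum_congr rfl
        intro p hp
        unfold fA
        rw [if_pos hp]
      rw [this]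
      simp
    · intro p _ hpn
      unfold fA
      rw [if_neg hpn]
  rw [h1, h4]
  ring

theorem Df_one (f : ℕ → ℝ) (N : ℕ) (a : ℤ) : BX.Df f N a 1 = 0 := by
  unfold BX.Df
  have : (Icc 1 N).filter (fun p : ℕ => p.Prime ∧ (p : ℤ) ≡ a [ZMOD (1 : ℕ)]) =
      (Icc 1 N).filter Nat.Prime := by
    apply Finset.filter_congr
    intro p _
    refine ⟨fun h => h.1, fun h => ⟨h, ?_⟩⟩
    push_cast
    exact Int.modEq_one
  rw [this]
  simp

theorem tot_mul (P : Finset ℕ) (hP : ∀ p ∈ P, p.Prime) : ∀ d, ∀ p ∈ P, ¬ p ∣ d →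
    (fun e : ℕ => 1 / (Nat.totient e : ℝ)) (d * p) =
      (fun e : ℕ => 1 / (Nat.totient e : ℝ)) d * (1 / ((p : ℝ) - 1)) := by
  intro d p hp hpd
  have h1 : Nat.Coprime d p := ((hP p hp).coprime_iff_not_dvd.2 hpd).symm
  simp only
  rw [Nat.totient_mul h1, Nat.totient_prime (hP p hp)]
  have h2 : 1 ≤ p := (hP p hp).pos
  push_cast [Nat.cast_sub h2]
  rw [one_div_mul_one_div]

/-- the recursion for the counting function of `A` -/
theorem LL_eq (hLN : St_LN) {N : ℕ} (hN : 2 ≤ N) {ε₁ : ℝ} {A : Finset ℕ}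
    (hA : ∀ p ∈ A, p.Prime ∧ p ≤ N) (a : ℤ) (K : ℕ) (b : Bool) (τ ζ : ℝ) (d : ℕ)
    (hd : ∀ p ∈ pr N ε₁ (1 / 7), tt N p < ζ → ¬ p ∣ d) :
    ∑ p ∈ A, LL (pr N ε₁ (1 / 7)) (tt N) (ind (a - (p : ℤ)).natAbs) K b τ ζ d =
      (A.card : ℝ) * (1 / (Nat.totient d : ℝ) *
        MM (pr N ε₁ (1 / 7)) (tt N) (fun p => 1 / ((p : ℝ) - 1)) K b τ ζ) +
      LL (pr N ε₁ (1 / 7)) (tt N) (BX.Df (fA A) N a) K b τ ζ d := by
  rw [← hLN.1 (pr N ε₁ (1 / 7)) (tt N) A (fun p => ind (a - (p : ℤ)).natAbs) K b τ ζ d]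
  have h1 : (fun e => ∑ p ∈ A, ind (a - (p : ℤ)).natAbs e) =
      (fun e => (A.card : ℝ) * (fun e : ℕ => 1 / (Nat.totient e : ℝ)) e + BX.Df (fA A) N a e) := by
    funext e
    exact count_eq hA a e
  rw [h1, hLN.2.1 (pr N ε₁ (1 / 7)) (tt N) (A.card : ℝ) (fun e : ℕ => 1 / (Nat.totient e : ℝ))
    (BX.Df (fA A) N a) K b τ ζ d,
    hLN.2.2 (pr N ε₁ (1 / 7)) (tt N) (siz hN _ _) (fun p => 1 / ((p : ℝ) - 1))
      (fun e : ℕ => 1 / (Nat.totient e : ℝ)) (tot_mul _ (siz hN _ _).pr) K b τ ζ d hd]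

/-- elements of `EE` -/
theorem mem_EE {N : ℕ} {u v τ ζ : ℝ} {e : ℕ} (h : e ∈ EE (pr N u v) (tt N) τ ζ) :
    e ≠ 0 ∧ Squarefree e ∧ (∀ p ∈ e.primeFactors, u ≤ tt N p ∧ tt N p < v) ∧
      WFac (tt N) τ e := by
  classical
  unfold EE at h
  rw [mem_filter, mem_image] at h
  obtain ⟨⟨s, hs, rfl⟩, hw⟩ := h
  rw [mem_powerset] at hs
  have hp : ∀ p ∈ s, p ∈ pr N u v := fun p hp => (mem_filter.1 (hs hp)).1
  have hpr : ∀ p ∈ s, p.Prime := fun p h => (mem_pr.1 (hp p h)).2.1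
  have h0 : ∏ p ∈ s, p ≠ 0 := Finset.prod_ne_zero_iff.2 fun p h => (hpr p h).ne_zero
  refine ⟨h0, ?_, ?_, hw⟩
  · exact (Finset.squarefree_prod_of_pairwise_isCoprime (fun p hp q hq hpq => by
      exact Nat.coprime_iff_isRelPrime.1 ((Nat.coprime_primes (hpr p hp) (hpr q hq)).2 hpq))
      (fun p h => (hpr p h).prime.squarefree))
  · intro p hp'
    rw [Nat.mem_primeFactors] at hp'
    obtain ⟨q, hq, hpq⟩ := (hp'.1.prime.dvd_finsetProd_iff _).1 hp'.2.1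
    have : p = q := (Nat.prime_dvd_prime_iff_eq hp'.1 (hpr q hq)).1 hpq
    rw [this]
    exact (mem_pr.1 (hp q hq)).2.2

/-- the first error term -/
theorem err1 (hFA : St_FA) {N : ℕ} (hN : 2 ≤ N) {ε₁ : ℝ} (hε : 0 < ε₁) (f : ℕ → ℝ) (a : ℤ) :
    ∑ e ∈ EE (pr N ε₁ (1 / 7)) (tt N) (111 / 200) (1 / 7), |BX.Df f N a (1 * e)| ≤
      ∑ d ∈ facR N (111 / 200) (ε₁ / 2) (1 / 500), |BX.Df f N a d| := by
  classical
  have h1 : ∑ e ∈ EE (pr N ε₁ (1 / 7)) (tt N) (111 / 200) (1 / 7), |BX.Df f N a (1 * e)| =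
      ∑ e ∈ (EE (pr N ε₁ (1 / 7)) (tt N) (111 / 200) (1 / 7)).filter (fun e => 1 < e),
        |BX.Df f N a e| := by
    rw [Finset.sum_filter]
    apply Finset.sum_congr rfl
    intro e he
    rw [one_mul]
    split_ifs with h
    · rfl
    · have h0 := (mem_EE he).1
      have : e = 1 := by omega
      rw [this, Df_one, abs_zero]
  rw [h1]
  apply Finset.sum_le_sum_of_subset_of_nonneg
  · intro e he
    rw [mem_filter] at he
    obtain ⟨h2, h3, h4, h5⟩ := mem_EE he.1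
    exact (hFA N ε₁ hN hε).1 e he.2 h3 (fun p hp => (h4 p hp).1) h5
  · intro _ _ _
    exact abs_nonneg _

/-- the second error term -/
theorem err2 (hFA : St_FA) {N : ℕ} (hN : 2 ≤ N) {ε₁ : ℝ} (hε : 0 < ε₁) (hε2 : ε₁ ≤ 1 / 25)
    (f : ℕ → ℝ) (a : ℤ) :
    ∑ q ∈ pr N (1 / 7) (119 / 250),
      ∑ e ∈ EE (pr N ε₁ (1 / 7)) (tt N) (ta N q) (za N q), |BX.Df f N a (q * e)| ≤
      ∑ d ∈ facR N (111 / 200) (ε₁ / 2) (1 / 500), |BX.Df f N a d| := by
  classical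
  rw [Finset.sum_sigma' (f := fun q e => |BX.Df f N a (q * e)|)]
  have hinj : Set.InjOn (fun x : (_ : ℕ) × ℕ => x.1 * x.2)
      ((pr N (1 / 7) (119 / 250)).sigma
        (fun q => EE (pr N ε₁ (1 / 7)) (tt N) (ta N q) (za N q)) : Finset ((_ : ℕ) × ℕ)) := by
    rintro ⟨q, e⟩ hqe ⟨q', e'⟩ hqe' heq
    rw [mem_coe, mem_sigma] at hqe hqe'
    simp only at hqe hqe' heq
    have hq := mem_pr.1 hqe.1
    have hq' := mem_pr.1 hqe'.1
    obtain ⟨h1, h2, h3, h4⟩ := mem_EE hqe.2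
    obtain ⟨h1', h2', h3', h4'⟩ := mem_EE hqe'.2
    have hqq : q = q' := by
      have hd : q ∣ q' * e' := heq ▸ Dvd.intro e rfl
      rcases (hq.2.1.dvd_mul).1 hd with h | h
      · exact (Nat.prime_dvd_prime_iff_eq hq.2.1 hq'.2.1).1 h
      · exfalso
        have := (h3' q (Nat.mem_primeFactors.2 ⟨hq.2.1, h, h1'⟩)).2
        linarith [hq.2.2.1]
    subst hqq
    have : e = e' := Nat.eq_of_mul_eq_mul_left hq.2.1.pos heq
    rw [this]
  calc ∑ x ∈ (pr N (1 / 7) (119 / 250)).sigma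
        (fun q => EE (pr N ε₁ (1 / 7)) (tt N) (ta N q) (za N q)), |BX.Df f N a (x.1 * x.2)|
      = ∑ d ∈ ((pr N (1 / 7) (119 / 250)).sigma
        (fun q => EE (pr N ε₁ (1 / 7)) (tt N) (ta N q) (za N q))).image (fun x => x.1 * x.2),
          |BX.Df f N a d| := by
        rw [Finset.sum_image hinj]
    _ ≤ _ := by
        apply Finset.sum_le_sum_of_subset_of_nonneg
        · intro d hd
          rw [mem_image] at hd
          obtain ⟨⟨q, e⟩, hqe, rfl⟩ := hd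
          rw [mem_sigma] at hqe
          simp only at hqe ⊢
          have hq := mem_pr.1 hqe.1
          obtain ⟨h1, h2, h3, h4⟩ := mem_EE hqe.2
          refine (hFA N ε₁ hN hε).2 q e (Lv (tt N q)) hq.2.1 ?_ h1 h2 (fun p hp => (h3 p hp).1)
            (by linarith [hq.2.2.1]) ?_ ?_ ?_ h4
          · intro h
            have := (h3 q (Nat.mem_primeFactors.2 ⟨hq.2.1, h, h1⟩)).2
            linarith [hq.2.2.1]
          · unfold Lv
            split_ifs with h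
            · linarith
            · linarith [hq.2.2.2]
          · unfold Lv
            split_ifs with h <;> norm_num
          · unfold Lv
            split_ifs with h
            · linarith
            · linarith [hq.2.2.2]
        · intro _ _ _
          exact abs_nonneg _

end Pool.Agent.W23.DC
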