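import Pool.Agent.W23.DC.Fin1
import Pool.Agent.W23.DC.Fin4
import Pool.Agent.W23.DC.Fin5

/-!
DC project (helper23): dense sets of primes and almost primes.
-/

namespace Pool.Agent.W23.DC

open Finset Filter
open Pool.Agent.H442R2
open Pool.Agent.H442R2.KF

open Classical in
/-- the theorem in terms of `N` -/
theorem main_N (hPT : St_PT) (hLN : St_LN) (hER : St_ER) (hMI : St_MI) (hMT : St_MT)
    (hMP : St_MP) (hFA : St_FA) (hNU : St_NU) (hSFX : St_SFX) (hSP : St_SP) (hFIF : St_FIF)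
    (δ ε : ℝ) (hδ : 0 < δ) (hε : 0 < ε) (hε1 : ε ≤ 1 / 2) :
    ∃ (c : ℝ) (K N₀ : ℕ), 0 < c ∧ ∀ N : ℕ, N₀ ≤ N → ∀ A : Finset ℕ,
      (∀ p ∈ A, p.Prime ∧ p ≤ N) → δ * (N / Real.log N) ≤ A.card →
      ((Icc (-(N : ℤ)) N).filter (fun a : ℤ => ((A.filter (fun p : ℕ =>
        ∃ m s : ℕ, (a - p).natAbs = m * s ∧ (m : ℝ) ≤ (N : ℝ) ^ ε ∧ 1 < s ∧
          s.primeFactorsList.length ≤ 2 ∧
          ∀ q ∈ s.primeFactors, (N : ℝ) ^ (1 / 7 : ℝ) ≤ q)).card : ℝ) < c * A.card)).card ≤ K := by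
  obtain ⟨A0, F, f, hS⟩ := hSFX
  obtain ⟨c₀, hc₀, H1⟩ := lowerW hPT hLN hER hMI hMT hMP hFA hNU A0 F f hS
  obtain ⟨C, hC, H2⟩ := hSP
  -- the choice of `ε₁`
  obtain ⟨ε₁, hε₁, hε₁a, hε₁b⟩ : ∃ ε₁ : ℝ, 0 < ε₁ ∧ ε₁ ≤ 1 / 25 ∧
      C * (ε₁ / ε) ^ 2 ≤ c₀ * ε₁ * δ / 8 := by
    refine ⟨min (1 / 25) (c₀ * δ * ε ^ 2 / (8 * C)), lt_min (by norm_num) (by positivity),
      min_le_left _ _, ?_⟩
    set e := min (1 / 25) (c₀ * δ * ε ^ 2 / (8 * C)) with he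
    have h1 : e ≤ c₀ * δ * ε ^ 2 / (8 * C) := min_le_right _ _
    have h2 : 0 < e := lt_min (by norm_num) (by positivity)
    rw [le_div_iff₀ (by positivity)] at h1
    have h3 : C * (e / ε) ^ 2 = (e * (8 * C)) * e / (8 * ε ^ 2) := by
      field_simp
    have h4 : c₀ * e * δ / 8 = (c₀ * δ * ε ^ 2) * e / (8 * ε ^ 2) := by
      field_simp
    rw [h3, h4]
    gcongr
  obtain ⟨N₁, hN₁⟩ := H1 ε₁ hε₁ hε₁a
  obtain ⟨N₂, hN₂⟩ := H2 ε₁ ε hε₁ (by linarith) hε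
  obtain ⟨N₃, hN₃⟩ := struct
  obtain ⟨κ, hκ, hκ2⟩ : ∃ κ : ℝ, 0 < κ ∧ 3 * κ = c₀ * ε₁ * δ / 8 :=
    ⟨c₀ * ε₁ * δ / 24, by positivity, by ring⟩
  obtain ⟨K, hK⟩ := few hFIF (θ := 111 / 200) (δ := 1 / 500) (ε := ε₁ / 2) (κ := κ) (by norm_num)
    (by norm_num) (by positivity) hκ
  -- large `N`
  obtain ⟨N₄, hN₄⟩ : ∃ N₄ : ℕ, ∀ N : ℕ, N₄ ≤ N →
      12 * (N : ℝ) ^ (6 / 7 : ℝ) + 2 * (N : ℝ) ^ ε + 2 ≤ c₀ * ε₁ * δ / 8 * (N / Real.log N) := by
    have hk : 0 < c₀ * ε₁ * δ / 8 := by positivity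
    have hlim : Tendsto (fun x : ℝ => Real.log x / x ^ (1 / 14 : ℝ)) atTop (nhds 0) :=
      (isLittleO_log_rpow_atTop (by norm_num : (0 : ℝ) < 1 / 14)).tendsto_div_nhds_zero
    have h1 := (hlim.comp (tendsto_natCast_atTop_atTop (R := ℝ))).eventually_le_const
      (show (0 : ℝ) < c₀ * ε₁ * δ / 8 / 16 by positivity)
    obtain ⟨M, hM⟩ := Filter.eventually_atTop.1 h1
    refine ⟨max M 2, fun N hN => ?_⟩
    have hNM : M ≤ N := (le_max_left _ _).trans hN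
    have hN2 : 2 ≤ N := (le_max_right _ _).trans hN
    have hN1 : (1 : ℝ) < N := by exact_mod_cast (by omega : 1 < N)
    have hN0 : (0 : ℝ) < N := by linarith
    have hL : 0 < Real.log N := Real.log_pos hN1
    have h2 : Real.log N / (N : ℝ) ^ (1 / 14 : ℝ) ≤ c₀ * ε₁ * δ / 8 / 16 := hM N hNM
    have h3 : Real.log N ≤ c₀ * ε₁ * δ / 8 / 16 * (N : ℝ) ^ (1 / 14 : ℝ) := by
      rwa [div_le_iff₀ (by positivity)] at h2
    have h4 : (N : ℝ) ^ (6 / 7 : ℝ) ≤ (N : ℝ) ^ (13 / 14 : ℝ) :=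
      Real.rpow_le_rpow_of_exponent_le hN1.le (by norm_num)
    have h5 : (N : ℝ) ^ ε ≤ (N : ℝ) ^ (13 / 14 : ℝ) :=
      Real.rpow_le_rpow_of_exponent_le hN1.le (by linarith)
    have h6 : (1 : ℝ) ≤ (N : ℝ) ^ (13 / 14 : ℝ) := Real.one_le_rpow hN1.le (by norm_num)
    have h7 : 16 * (N : ℝ) ^ (13 / 14 : ℝ) ≤ c₀ * ε₁ * δ / 8 * (N / Real.log N) := by
      rw [← mul_div_assoc, le_div_iff₀ hL]
      calc 16 * (N : ℝ) ^ (13 / 14 : ℝ) * Real.log N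
          ≤ 16 * (N : ℝ) ^ (13 / 14 : ℝ) * (c₀ * ε₁ * δ / 8 / 16 * (N : ℝ) ^ (1 / 14 : ℝ)) := by
            gcongr
        _ = c₀ * ε₁ * δ / 8 * ((N : ℝ) ^ (13 / 14 : ℝ) * (N : ℝ) ^ (1 / 14 : ℝ)) := by ring
        _ = c₀ * ε₁ * δ / 8 * N := by
            rw [← Real.rpow_add hN0]
            norm_num
    linarith
  refine ⟨c₀ * ε₁ / 4, K, max (max N₁ N₂) (max (max N₃ N₄) 2), by positivity, ?_⟩
  intro N hN A hA hAc
  have hNN₁ : N₁ ≤ N := ((le_max_left _ _).trans (le_max_left _ _)).trans hN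
  have hNN₂ : N₂ ≤ N := ((le_max_right _ _).trans (le_max_left _ _)).trans hN
  have hNN₃ : N₃ ≤ N :=
    (((le_max_left _ _).trans (le_max_left _ _)).trans (le_max_right _ _)).trans hN
  have hNN₄ : N₄ ≤ N :=
    (((le_max_right _ _).trans (le_max_left _ _)).trans (le_max_right _ _)).trans hN
  have hN2 : 2 ≤ N := ((le_max_right _ _).trans (le_max_right _ _)).trans hN
  have hN1 : (1 : ℝ) < N := by exact_mod_cast (by omega : 1 < N)
  have hN0 : (0 : ℝ) < N := by linarith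
  have hL : 0 < Real.log N := Real.log_pos hN1
  refine le_trans (Finset.card_le_card ?_) (hK N hN2 (fA A) (fA_le A))
  intro a ha
  rw [mem_filter] at ha ⊢
  refine ⟨ha.1, ?_⟩
  by_contra hnot
  rw [not_lt] at hnot
  have ha' : |(a : ℝ)| ≤ N := by
    rw [mem_Icc] at ha
    rw [abs_le]
    constructor
    · exact_mod_cast ha.1.1
    · exact_mod_cast ha.1.2
  have haz : |a| ≤ (N : ℤ) := by
    rw [mem_Icc] at ha
    exact abs_le.2 ha.1
  have hlow := hN₁ N hNN₁ A hA a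
  have hpos := sum_le_pos (N := N) (ε₁ := ε₁) A (fun p : ℕ => (a - (p : ℤ)).natAbs)
  -- the good set
  set Gd := A.filter (fun p : ℕ =>
        ∃ m s : ℕ, (a - p).natAbs = m * s ∧ (m : ℝ) ≤ (N : ℝ) ^ ε ∧ 1 < s ∧
          s.primeFactorsList.length ≤ 2 ∧
          ∀ q ∈ s.primeFactors, (N : ℝ) ^ (1 / 7 : ℝ) ≤ q) with hGd
  have hgood : (Gd.card : ℝ) < c₀ * ε₁ / 4 * A.card := ha.2
  set B1 := A.filter (fun p : ℕ => (p : ℤ) ≠ a ∧ ∃ q : ℕ, q.Prime ∧ (N : ℝ) ^ (1 / 7 : ℝ) ≤ q ∧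
      q ^ 2 ∣ (a - (p : ℤ)).natAbs) with hB1
  set B2 := (Icc 1 N).filter (fun p : ℕ => p.Prime ∧ (p : ℤ) ≠ a ∧ ∃ m : ℕ,
      m ∣ (a - (p : ℤ)).natAbs ∧
      (∀ l : ℕ, l.Prime → l ∣ m → (l : ℝ) < (N : ℝ) ^ ε₁) ∧ (N : ℝ) ^ ε < m) with hB2
  set B3 := A.filter (fun p : ℕ => ((a - (p : ℤ)).natAbs : ℝ) ≤ (N : ℝ) ^ ε) with hB3
  have hcover : A.filter (fun p : ℕ => 0 < Wf N ε₁ (a - (p : ℤ)).natAbs) ⊆ ((Gd ∪ B1) ∪ B2) ∪ B3 := by
    intro p hp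
    rw [mem_filter] at hp
    obtain ⟨hpA, hpW⟩ := hp
    by_contra hno
    simp only [mem_union, not_or] at hno
    obtain ⟨⟨⟨g1, g2⟩, g3⟩, g4⟩ := hno
    have hε0 : (0 : ℝ) ≤ (N : ℝ) ^ ε := by positivity
    have hpa : (p : ℤ) ≠ a := by
      rintro rfl
      apply g4
      rw [hB3, mem_filter]
      exact ⟨hpA, by simpa using hε0⟩
    have hn0 : (a - (p : ℤ)).natAbs ≠ 0 := by
      rw [Ne, Int.natAbs_eq_zero]
      omega
    have hn2 : (a - (p : ℤ)).natAbs ≤ 2 * N := by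
      have h3 := abs_le.1 haz
      have h4 := (hA p hpA).2
      omega
    obtain ⟨m, s, hms, hm, hs2, hs3⟩ := hN₃ N hNN₃ ε₁ _ hn0 hn2 hpW (fun q hq hqN hqd => by
      apply g2
      rw [hB1, mem_filter]
      exact ⟨hpA, hpa, q, hq, hqN, hqd⟩)
    have hmN : (m : ℝ) ≤ (N : ℝ) ^ ε := by
      by_contra hlt
      rw [not_le] at hlt
      apply g3
      rw [hB2, mem_filter, mem_Icc]
      exact ⟨⟨(hA p hpA).1.pos, (hA p hpA).2⟩, (hA p hpA).1, hpa, m, ⟨s, hms⟩, hm, hlt⟩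
    have hs1 : 1 < s := by
      by_contra hle
      have hs0 : s ≠ 0 := by
        rintro rfl
        exact hn0 (by rw [hms, mul_zero])
      have hs1 : s = 1 := by omega
      apply g4
      rw [hB3, mem_filter, hms, hs1, mul_one]
      exact ⟨hpA, hmN⟩
    apply g1
    rw [hGd, mem_filter]
    exact ⟨hpA, m, s, hms, hmN, hs1, hs2, hs3⟩
  have hcard : ((A.filter (fun p : ℕ => 0 < Wf N ε₁ (a - (p : ℤ)).natAbs)).card : ℝ) ≤
      Gd.card + B1.card + B2.card + B3.card := by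
    have h1 := (Finset.card_le_card hcover).trans (Finset.card_union_le _ _)
    have h2 := Finset.card_union_le (Gd ∪ B1) B2
    have h3 := Finset.card_union_le Gd B1
    have h4 : (A.filter (fun p : ℕ => 0 < Wf N ε₁ (a - (p : ℤ)).natAbs)).card ≤
        Gd.card + B1.card + B2.card + B3.card := by omega
    exact_mod_cast h4
  have hb1 : (B1.card : ℝ) ≤ 12 * (N : ℝ) ^ (6 / 7 : ℝ) :=
    squares hN2 A (fun p hp => (hA p hp).2) a haz
  have hb2 : (B2.card : ℝ) ≤ C * (ε₁ / ε) ^ 2 * (N / Real.log N) := by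
    have := hN₂ N hNN₂ a ha'
    convert this using 2
  have hb3 : (B3.card : ℝ) ≤ 2 * (N : ℝ) ^ ε + 1 := close A a _ (by positivity)
  have hb4 := hN₄ N hNN₄
  have hD : 0 ≤ (N : ℝ) / Real.log N := by positivity
  have hb5 : C * (ε₁ / ε) ^ 2 * (N / Real.log N) ≤ c₀ * ε₁ * δ / 8 * (N / Real.log N) :=
    mul_le_mul_of_nonneg_right hε₁b hD
  have hR : 3 * ∑ d ∈ facR N (111 / 200) (ε₁ / 2) (1 / 500), |BX.Df (fA A) N a d| ≤
      c₀ * ε₁ * δ / 8 * (N / Real.log N) := by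
    calc _ ≤ 3 * (κ * (N / Real.log N)) := by linarith
      _ = (3 * κ) * (N / Real.log N) := by ring
      _ = _ := by rw [hκ2]
  have hAδ : c₀ * ε₁ * (δ * (N / Real.log N)) ≤ c₀ * ε₁ * A.card := by
    have : 0 ≤ c₀ * ε₁ := by positivity
    exact mul_le_mul_of_nonneg_left hAc this
  have hsumW : c₀ * ε₁ * A.card - c₀ * ε₁ * δ / 8 * (N / Real.log N) ≤
      Gd.card + B1.card + B2.card + B3.card := by
    linarith
  have hfin : c₀ * ε₁ * A.card ≤ Gd.card + 3 * (c₀ * ε₁ * δ / 8 * (N / Real.log N)) := by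
    linarith
  have hAc' : 0 ≤ c₀ * ε₁ * A.card := by positivity
  nlinarith

open Classical in
/-- **Dense sets of primes and almost primes** -/
theorem main (hPT : St_PT) (hLN : St_LN) (hER : St_ER) (hMI : St_MI) (hMT : St_MT)
    (hMP : St_MP) (hFA : St_FA) (hNU : St_NU) (hSFX : St_SFX) (hSP : St_SP) (hFIF : St_FIF)
    (δ ε : ℝ) (hδ : 0 < δ) (hε : 0 < ε) :
    ∃ (c : ℝ) (K : ℕ), 0 < c ∧ ∀ (X : ℕ), 2 ≤ X → ∀ A : Finset ℕ,
      (∀ p ∈ A, p.Prime ∧ p ≤ X) → δ * X / Real.log X ≤ A.card →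
      ((Icc (-(2 * X : ℤ)) (2 * X)).filter (fun N : ℤ => ((A.filter (fun p : ℕ =>
        ∃ m s : ℕ, (N - p).natAbs = m * s ∧ (m : ℝ) ≤ (X : ℝ) ^ ε ∧ 1 < s ∧
          s.primeFactorsList.length ≤ 2 ∧
          ∀ q ∈ s.primeFactors, (X : ℝ) ^ (1 / 7 : ℝ) < q)).card : ℝ) < c * A.card)).card ≤ K := by
  obtain ⟨ε', hε', hε'1, hε'2⟩ : ∃ ε' : ℝ, 0 < ε' ∧ ε' ≤ 1 / 2 ∧ 2 * ε' ≤ ε :=
    ⟨min (1 / 2) (ε / 2), lt_min (by norm_num) (by positivity), min_le_left _ _, by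
      have := min_le_right (1 / 2) (ε / 2)
      linarith⟩
  obtain ⟨c, K, N₀, hc, H⟩ := main_N hPT hLN hER hMI hMT hMP hFA hNU hSFX hSP hFIF (δ / 2) ε'
    (by positivity) hε' hε'1
  refine ⟨c, max K (4 * N₀ + 1), hc, ?_⟩
  intro X hX A hA hAc
  rcases lt_or_ge X N₀ with hlt | hge
  · refine le_trans ?_ (le_max_right _ _)
    refine (Finset.card_filter_le _ _).trans ?_
    rw [Int.card_Icc]
    omega
  · refine le_trans ?_ (le_max_left _ _)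
    have hX2 : (2 : ℝ) ≤ X := by exact_mod_cast hX
    have hX0 : (0 : ℝ) < X := by linarith
    have hLX : 0 < Real.log X := Real.log_pos (by linarith)
    have hA2 : δ / 2 * (((2 * X : ℕ) : ℝ) / Real.log ((2 * X : ℕ) : ℝ)) ≤ A.card := by
      refine le_trans ?_ hAc
      push_cast
      have h1 : Real.log X ≤ Real.log (2 * X) := Real.log_le_log hX0 (by linarith)
      calc δ / 2 * (2 * X / Real.log (2 * X)) = δ * X / Real.log (2 * X) := by ring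
        _ ≤ δ * X / Real.log X := div_le_div_of_nonneg_left (by positivity) hLX h1
    have key := H (2 * X) (by omega) A (fun p hp => ⟨(hA p hp).1, by
      have := (hA p hp).2
      omega⟩) hA2
    refine le_trans (Finset.card_le_card ?_) key
    intro a ha
    rw [mem_filter] at ha ⊢
    constructor
    · have := ha.1
      push_cast
      exact this
    · refine lt_of_le_of_lt ?_ ha.2
      have hsub : (A.filter (fun p : ℕ =>
        ∃ m s : ℕ, (a - p).natAbs = m * s ∧ (m : ℝ) ≤ ((2 * X : ℕ) : ℝ) ^ ε' ∧ 1 < s ∧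
          s.primeFactorsList.length ≤ 2 ∧
          ∀ q ∈ s.primeFactors, ((2 * X : ℕ) : ℝ) ^ (1 / 7 : ℝ) ≤ q)) ⊆
          (A.filter (fun p : ℕ =>
        ∃ m s : ℕ, (a - p).natAbs = m * s ∧ (m : ℝ) ≤ (X : ℝ) ^ ε ∧ 1 < s ∧
          s.primeFactorsList.length ≤ 2 ∧
          ∀ q ∈ s.primeFactors, (X : ℝ) ^ (1 / 7 : ℝ) < q)) := by
        intro p hp
        rw [mem_filter] at hp ⊢
        obtain ⟨hpA, m, s, h1, h2, h3, h4, h5⟩ := hp
        refine ⟨hpA, m, s, h1, h2.trans ?_, h3, h4, fun q hq => lt_of_lt_of_le ?_ (h5 q hq)⟩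
        · push_cast
          calc (2 * (X : ℝ)) ^ ε' ≤ ((X : ℝ) ^ (2 : ℝ)) ^ ε' := by
                apply Real.rpow_le_rpow (by positivity) _ hε'.le
                rw [Real.rpow_two]
                nlinarith
            _ = (X : ℝ) ^ (2 * ε') := by rw [← Real.rpow_mul hX0.le]
            _ ≤ (X : ℝ) ^ ε := Real.rpow_le_rpow_of_exponent_le (by linarith) hε'2
        · push_cast
          exact Real.rpow_lt_rpow hX0.le (by linarith) (by norm_num)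
      exact_mod_cast Finset.card_le_card hsub

end Pool.Agent.W23.DC
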